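import Mathlib

/-!
A lower bound from a law for the logarithm of a supremum.
-/

set_option autoImplicit false

open Filter Topology Metric Set

namespace Pool.Agent.Y977.PA

theorem out_core {p A : ℝ} (hp : 0 < p) (hA : 0 < A) (D : ℝ → Set ℝ)
    (hD : ∀ ρ, ∀ x ∈ D ρ, 0 < x)
    (h : Tendsto (fun ρ : ℝ => ρ ^ p * Real.log (1 / sSup (D ρ))) (𝓝[>] 0) (𝓝 A)) :
    ∃ C r₀ : ℝ, 0 < C ∧ 0 < r₀ ∧ ∀ r : ℝ, 0 < r → r < r₀ → ∃ x ∈ D (r / 4), x ≤ 1 ∧
      1 + Real.log (1 / x) ≤ C * r ^ (-p) := by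
  have h1 : ∀ᶠ ρ in 𝓝[>] (0 : ℝ), ρ ^ p * Real.log (1 / sSup (D ρ)) ∈ Ioo (A / 2) (A + 1) :=
    h (Ioo_mem_nhds (by linarith) (by linarith))
  rw [eventually_nhdsWithin_iff, Metric.eventually_nhds_iff] at h1
  obtain ⟨δ, hδ, h1⟩ := h1
  refine ⟨2 + (A + 1) * 4 ^ p, min 1 δ, by positivity, lt_min one_pos hδ, fun r hr hr0 => ?_⟩
  have hr1 : r < 1 := lt_of_lt_of_le hr0 (min_le_left _ _)
  have hrδ : r < δ := lt_of_lt_of_le hr0 (min_le_right _ _)
  have hρ : 0 < r / 4 := by positivity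
  have h2 := h1 (y := r / 4) (by
    rw [Real.dist_eq, sub_zero, abs_of_pos hρ]
    linarith) hρ
  obtain ⟨h3, h4⟩ := h2
  set s := sSup (D (r / 4)) with hs
  have hρp : 0 < (r / 4) ^ p := Real.rpow_pos_of_pos hρ p
  have h5 : 0 < Real.log (1 / s) := by
    by_contra hcon
    push Not at hcon
    have := mul_nonpos_of_nonneg_of_nonpos hρp.le hcon
    linarith
  have hs0 : 0 ≤ s := Real.sSup_nonneg fun x hx => (hD _ x hx).le
  have hsne : s ≠ 0 := by
    intro h0
    rw [h0, div_zero, Real.log_zero] at h5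
    exact lt_irrefl _ h5
  have hspos : 0 < s := lt_of_le_of_ne hs0 (Ne.symm hsne)
  have hs1 : s < 1 := by
    have h6 : 1 < 1 / s := (Real.log_pos_iff (by positivity)).1 h5
    rwa [lt_div_iff₀ hspos, one_mul] at h6
  have hbdd : BddAbove (D (r / 4)) := by
    by_contra hcon
    exact hsne (Real.sSup_of_not_bddAbove hcon)
  have hne : (D (r / 4)).Nonempty := by
    by_contra hcon
    rw [Set.not_nonempty_iff_eq_empty] at hcon
    apply hsne
    rw [hs, hcon, Real.sSup_empty]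
  obtain ⟨x, hx, hxs⟩ := exists_lt_of_lt_csSup hne (show s / 2 < s by linarith)
  have hxle : x ≤ s := le_csSup hbdd hx
  have hx0 : 0 < x := hD _ x hx
  refine ⟨x, hx, by linarith, ?_⟩
  have h6 : Real.log (1 / x) ≤ Real.log 2 + Real.log (1 / s) := by
    rw [← Real.log_mul (by norm_num) (by positivity)]
    apply Real.log_le_log (by positivity)
    rw [mul_one_div, div_le_div_iff₀ hx0 hspos]
    linarith
  have h7 : Real.log (1 / s) ≤ (A + 1) * 4 ^ p * r ^ (-p) := by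
    have h8 : Real.log (1 / s) ≤ (A + 1) / (r / 4) ^ p := by
      rw [le_div_iff₀ hρp]
      linarith
    refine h8.trans (le_of_eq ?_)
    rw [Real.div_rpow hr.le (by norm_num), Real.rpow_neg hr.le]
    have h9 : (0 : ℝ) < r ^ p := Real.rpow_pos_of_pos hr p
    have h10 : (0 : ℝ) < 4 ^ p := Real.rpow_pos_of_pos (by norm_num) p
    field_simp
  have h11 : (1 : ℝ) ≤ r ^ (-p) := by
    apply Real.one_le_rpow_of_pos_of_le_one_of_nonpos hr hr1.le (by linarith)
  have h12 : Real.log 2 < 1 := by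
    have := Real.log_two_lt_d9
    linarith
  nlinarith

theorem out_fin {p k C : ℝ} (hk : 0 < k) (hC : 0 < C) {r x : ℝ} (hr : 0 < r) (hx : 0 < x)
    (hx1 : x ≤ 1) (h : 1 + Real.log (1 / x) ≤ C * r ^ (-p)) :
    r ^ (2 + p) / (C / k) ≤ k * r ^ 2 / (1 + Real.log (1 / x)) ∧
      r ^ (1 + p) / (C / k) ≤ k * r / (1 + Real.log (1 / x)) := by
  have h1 : 0 ≤ Real.log (1 / x) := Real.log_nonneg (by rw [le_div_iff₀ hx]; linarith)
  have h2 : 0 < 1 + Real.log (1 / x) := by linarith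
  have h3 : (0 : ℝ) < r ^ p := Real.rpow_pos_of_pos hr p
  have h4 : r ^ p * (1 + Real.log (1 / x)) ≤ C := by
    have h5 := mul_le_mul_of_nonneg_left h h3.le
    refine h5.trans (le_of_eq ?_)
    rw [Real.rpow_neg hr.le]
    field_simp
  constructor
  · rw [Real.rpow_add hr, Real.rpow_ofNat, div_div_eq_mul_div, div_le_div_iff₀ hC h2]
    have h5 := mul_le_mul_of_nonneg_left h4 (show 0 ≤ r ^ 2 * k by positivity)
    nlinarith
  · rw [Real.rpow_add hr, Real.rpow_one, div_div_eq_mul_div, div_le_div_iff₀ hC h2]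
    have h5 := mul_le_mul_of_nonneg_left h4 (show 0 ≤ r * k by positivity)
    nlinarith

end Pool.Agent.Y977.PA
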