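import Pool.Agent.Y811.PC.Stm6
import Pool.Agent.Y977.PA.OutCore

/-!
Exact order of the complement at a point with a contact law.
-/

set_option autoImplicit false

namespace Pool.Agent.Y977.PA

open Complex Metric Set Filter Topology MeasureTheory Pool.Agent.H712R2 Pool.Agent.H713R2
  N62a1eb23 Pool.Agent.Y811.PC

theorem t_OUT (h : S_LOW) : S_OUT := by
  intro d c₀ p A hd hc hp hA ψ hψ hlim
  obtain ⟨k, r₁, hk, hr₁, hlow⟩ := h d hd ψ hψ
  obtain ⟨C, r₀, hC, hr₀, hcore⟩ := out_core hp hA (Dr ψ c₀) (by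
    rintro ρ x ⟨w, hw, rfl, -⟩
    linarith) hlim
  refine ⟨C / k, min r₀ r₁, by positivity, lt_min hr₀ hr₁, fun r hr hrr => ?_⟩
  obtain ⟨x, ⟨w, hw, rfl, hψw⟩, hx1, hx⟩ := hcore r hr (lt_of_lt_of_le hrr (min_le_left _ _))
  obtain ⟨ha, c₁, hb⟩ := hlow c₀ hc r hr (lt_of_lt_of_le hrr (min_le_right _ _)) w hw
    (by linarith) hψw
  obtain ⟨h1, h2⟩ := out_fin hk hC hr (by linarith) hx1 hx
  exact ⟨(ENNReal.ofReal_le_ofReal h1).trans ha, c₁, (ball_subset_ball h2).trans hb⟩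

end Pool.Agent.Y977.PA
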